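import Mathlib
import Pool.Agent.H321R2.CL.Form

set_option autoImplicit false

namespace Pool.Agent.Results.MP_35f46d_nt.TwelveVariables

/-- For every prime `p` there is a cubic form over the `p`-adic numbers in 12 variables that does
not vanish identically on any two-dimensional subspace. -/
theorem result : ∀ (p : ℕ) [Fact p.Prime],
    ∃ F : MvPolynomial (Fin 12) ℚ_[p], F.IsHomogeneous 3 ∧ F ≠ 0 ∧
      ∀ W : Submodule ℚ_[p] (Fin 12 → ℚ_[p]), Module.finrank ℚ_[p] W = 2 →
        ∃ v ∈ W, MvPolynomial.eval v F ≠ 0 := by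
  intro p hp
  exact Pool.Agent.H321R2.CL.padic p

end Pool.Agent.Results.MP_35f46d_nt.TwelveVariables
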